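import Mathlib

/-!
# Symmetric cocycles with values `±1` become trivial over the fourth roots of unity (helper87)
-/

set_option autoImplicit false

namespace Pool.Agent.T6.H87.CH

/-- symmetric normalised cocycles with values `±1` -/
structure Coc (G : Type) [AddCommGroup G] where
  f : G → G → ℤˣ
  zero : f 0 0 = 1
  coc : ∀ g h k, f g h * f (g + h) k = f g (h + k) * f h k
  symm : ∀ g h, f g h = f h g

variable {G : Type} [AddCommGroup G]

lemma Coc.zero_left (c : Coc G) (g : G) : c.f 0 g = 1 := by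
  have h := c.coc 0 0 g
  rw [zero_add, zero_add, c.zero, one_mul] at h
  exact (mul_eq_right.1 h.symm)

/-- the extension -/
@[ext] structure Ex (c : Coc G) where
  a : ℤˣ
  g : G

variable (c : Coc G)

instance : Mul (Ex c) := ⟨fun x y => ⟨x.a * y.a * c.f x.g y.g, x.g + y.g⟩⟩
instance : One (Ex c) := ⟨⟨1, 0⟩⟩
instance : Inv (Ex c) := ⟨fun x => ⟨x.a⁻¹ * (c.f x.g (-x.g))⁻¹, -x.g⟩⟩

lemma mul_a (x y : Ex c) : (x * y).a = x.a * y.a * c.f x.g y.g := rfl
lemma mul_g (x y : Ex c) : (x * y).g = x.g + y.g := rfl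
lemma one_a : (1 : Ex c).a = 1 := rfl
lemma one_g : (1 : Ex c).g = 0 := rfl
lemma inv_a (x : Ex c) : (x⁻¹).a = x.a⁻¹ * (c.f x.g (-x.g))⁻¹ := rfl
lemma inv_g (x : Ex c) : (x⁻¹).g = -x.g := rfl

instance : CommGroup (Ex c) where
  mul_assoc x y z := by
    ext
    · simp only [mul_a, mul_g]
      have h := c.coc x.g y.g z.g
      congr 1
      calc x.a * y.a * c.f x.g y.g * z.a * c.f (x.g + y.g) z.g
          = x.a * y.a * z.a * (c.f x.g y.g * c.f (x.g + y.g) z.g) := by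
            simp only [mul_assoc, mul_comm, mul_left_comm]
        _ = x.a * y.a * z.a * (c.f x.g (y.g + z.g) * c.f y.g z.g) := by rw [h]
        _ = x.a * (y.a * z.a * c.f y.g z.g) * c.f x.g (y.g + z.g) := by
            simp only [mul_assoc, mul_comm, mul_left_comm]
    · simp only [mul_g, add_assoc]
  one_mul x := by
    ext
    · simp only [mul_a, one_a, one_g, c.zero_left, one_mul, mul_one]
    · simp only [mul_g, one_g, zero_add]
  mul_one x := by
    ext
    · simp only [mul_a, one_a, one_g, c.symm x.g 0, c.zero_left, mul_one]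
    · simp only [mul_g, one_g, add_zero]
  inv_mul_cancel x := by
    ext
    · simp only [mul_a, one_a, inv_a, inv_g, c.symm (-x.g) x.g]
      congr 1
      simp only [mul_assoc, mul_comm, mul_left_comm, inv_mul_cancel, mul_one, mul_inv_cancel_left,
        inv_mul_cancel_left]
      simp
    · simp only [mul_g, inv_g, one_g, neg_add_cancel]
  mul_comm x y := by
    ext
    · simp only [mul_a, c.symm x.g y.g, mul_comm x.a y.a]
    · simp only [mul_g, add_comm]

instance [Finite G] : Finite (Ex c) :=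
  Finite.of_injective (fun x : Ex c => (x.a, x.g)) (fun x y h => by
    simp only [Prod.mk.injEq] at h
    exact Ex.ext h.1 h.2)

lemma pow_g (x : Ex c) (n : ℕ) : (x ^ n).g = n • x.g := by
  induction n with
  | zero => simp [one_g]
  | succ n ih => rw [pow_succ, mul_g, ih, succ_nsmul]

lemma sq_of_g_zero (x : Ex c) (h : x.g = 0) : x ^ 2 = 1 := by
  rw [pow_two]
  ext
  · rw [mul_a, h, c.zero, mul_one, one_a, Int.units_mul_self]
  · rw [mul_g, h, one_g, add_zero]

/-- a symmetric cocycle is the coboundary of a function with values in the fourth roots of unity,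
if the order of all elements divides `2 t`, `t` odd -/
theorem exists_chi [Finite G] (t : ℕ) (ht : Odd t) (hG : ∀ g : G, (2 * t) • g = 0) :
    ∃ χ : G → ℂ, (∀ g, χ g ^ 4 = 1) ∧ ∀ g h, χ g * χ h = ((c.f g h : ℤ) : ℂ) * χ (g + h) := by
  have hz : (⟨-1, 0⟩ : Ex c) ≠ 1 := by
    intro h
    have h1 : (-1 : ℤˣ) = 1 := congrArg Ex.a h
    exact absurd h1 (by decide)
  obtain ⟨φ, hφ⟩ := CommGroup.exists_apply_ne_one_of_hasEnoughRootsOfUnity (Ex c) ℂ hz
  have hz2 : φ ⟨-1, 0⟩ = -1 := by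
    have h1 : φ ⟨-1, 0⟩ ^ 2 = 1 := by
      rw [← map_pow, sq_of_g_zero c _ rfl, map_one]
    have h2 : ((φ ⟨-1, 0⟩ : ℂˣ) : ℂ) ^ 2 = 1 := by
      rw [← Units.val_pow_eq_pow_val, h1, Units.val_one]
    rcases mul_self_eq_one_iff.1 ((pow_two _).symm.trans h2) with h3 | h3
    · exact absurd (Units.ext h3) hφ
    · exact Units.ext (by rw [h3, Units.val_neg, Units.val_one])
  have hu : ∀ u : ℤˣ, ((φ ⟨u, 0⟩ : ℂˣ) : ℂ) = ((u : ℤ) : ℂ) := by
    intro u
    rcases Int.units_eq_one_or u with h | h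
    · subst h
      have : (⟨1, 0⟩ : Ex c) = 1 := rfl
      rw [this, map_one]
      simp
    · subst h
      rw [hz2]
      simp
  have hmul : ∀ g h : G, ((φ ⟨1, g⟩ : ℂˣ) : ℂ) * ((φ ⟨1, h⟩ : ℂˣ) : ℂ) =
      ((c.f g h : ℤ) : ℂ) * ((φ ⟨1, g + h⟩ : ℂˣ) : ℂ) := by
    intro g h
    rw [← hu, ← Units.val_mul, ← Units.val_mul, ← map_mul, ← map_mul]
    congr 2
    ext
    · simp only [mul_a, one_mul, mul_one, c.zero_left]
    · simp only [mul_g, zero_add]
  have hcop : Nat.Coprime 4 t := by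
    have : Nat.Coprime (2 ^ 2) t := Nat.Coprime.pow_left 2 (Nat.coprime_two_left.2 ht)
    simpa using this
  obtain ⟨m, hm4, hmt⟩ := Nat.chineseRemainder hcop 1 0
  have hmodd : Odd m := by
    rw [Nat.odd_iff]
    have : m % 4 = 1 % 4 := hm4
    omega
  have htm : t ∣ m := (Nat.modEq_zero_iff_dvd).1 hmt
  refine ⟨fun g => ((φ ⟨1, g⟩ : ℂˣ) : ℂ) ^ m, fun g => ?_, fun g h => ?_⟩
  · obtain ⟨s, hs⟩ := htm
    have h1 : (⟨1, g⟩ : Ex c) ^ (m * 4) = 1 := by
      have h2 : (⟨1, g⟩ : Ex c) ^ (m * 4) = (((⟨1, g⟩ : Ex c) ^ (2 * t)) ^ s) ^ 2 := by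
        rw [← pow_mul, ← pow_mul, hs]
        congr 1
        ring
      rw [h2]
      apply sq_of_g_zero
      rw [← pow_mul, pow_g, mul_comm, mul_smul]
      show s • ((2 * t) • g) = 0
      rw [hG, smul_zero]
    show (((φ ⟨1, g⟩ : ℂˣ) : ℂ) ^ m) ^ 4 = 1
    rw [← pow_mul, ← Units.val_pow_eq_pow_val, ← map_pow, h1, map_one, Units.val_one]
  · show ((φ ⟨1, g⟩ : ℂˣ) : ℂ) ^ m * ((φ ⟨1, h⟩ : ℂˣ) : ℂ) ^ m =
      ((c.f g h : ℤ) : ℂ) * ((φ ⟨1, g + h⟩ : ℂˣ) : ℂ) ^ m
    rw [← mul_pow, hmul, mul_pow]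
    congr 1
    rcases Int.units_eq_one_or (c.f g h) with h1 | h1
    · rw [h1]; simp
    · rw [h1]
      simp [hmodd.neg_one_pow]

end Pool.Agent.T6.H87.CH
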