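import Pool.Agent.T6.H87.CH.Ch

/-! The sum of a fourth-root-of-unity function with Hadamard coboundary (helper87). -/

set_option autoImplicit false

namespace Pool.Agent.T6.H87.CH

open Finset

lemma fourth (z : ℂ) (h : z ^ 4 = 1) : ∃ a b : ℤ, z = a + b * Complex.I := by
  have h1 : (z - 1) * ((z + 1) * ((z - Complex.I) * (z + Complex.I))) = 0 := by
    have hI : Complex.I ^ 2 = -1 := Complex.I_sq
    linear_combination h - (z ^ 2 - 1) * hI
  rcases mul_eq_zero.1 h1 with h2 | h2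
  · exact ⟨1, 0, by linear_combination h2⟩
  rcases mul_eq_zero.1 h2 with h3 | h3
  · exact ⟨-1, 0, by push_cast; linear_combination h3⟩
  rcases mul_eq_zero.1 h3 with h4 | h4
  · exact ⟨0, 1, by push_cast; linear_combination h4⟩
  · exact ⟨0, -1, by push_cast; linear_combination h4⟩

lemma mul_conj_one (z : ℂ) (h : z ^ 4 = 1) : z * (starRingEnd ℂ) z = 1 := by
  have h1 : ‖z‖ = 1 := by
    have h2 : ‖z‖ ^ 4 = 1 := by rw [← norm_pow, h, norm_one]
    exact (pow_eq_one_iff_of_nonneg (norm_nonneg _) (by norm_num)).1 h2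
  rw [Complex.mul_conj, Complex.normSq_eq_norm_sq, h1]
  norm_num

variable {G : Type} [AddCommGroup G] [Fintype G] [DecidableEq G]

theorem sum_sq (f : G → G → ℤ) (hf : ∀ g h, f g h = 1 ∨ f g h = -1) (hs : ∀ g h, f g h = f h g)
    (h0 : ∀ g, f 0 g = 1) (N : ℤ) (hH : ∀ g h, ∑ k, f g k * f h k = if g = h then N else 0)
    (χ : G → ℂ) (h4 : ∀ g, χ g ^ 4 = 1) (hm : ∀ g h, χ g * χ h = ((f g h : ℤ) : ℂ) * χ (g + h)) :
    ∃ a b : ℤ, a ^ 2 + b ^ 2 = N := by
  have hadd : ∀ g h, χ (g + h) = ((f g h : ℤ) : ℂ) * (χ g * χ h) := by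
    intro g h
    rw [hm, ← mul_assoc]
    rcases hf g h with h1 | h1 <;> rw [h1] <;> simp
  have hcol : ∀ k, ∑ h, ((f h k : ℤ) : ℂ) = if k = 0 then (N : ℂ) else 0 := by
    intro k
    have h1 := hH k 0
    have h2 : ∑ h, f h k = if k = 0 then N else 0 := by
      rw [← h1]
      exact sum_congr rfl fun h _ => by rw [h0, mul_one, hs]
    rw [← Int.cast_sum, h2]
    split_ifs <;> simp
  have hχ0 : χ 0 = 1 := by
    have h1 := hm 0 0
    rw [h0, add_zero] at h1
    have h2 : χ 0 ≠ 0 := fun h => by have := h4 0; rw [h] at this; norm_num at this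
    have h3 : χ 0 * χ 0 = 1 * χ 0 := by rw [h1]; simp
    exact mul_right_cancel₀ h2 h3
  have hS : (∑ g, χ g) * (starRingEnd ℂ) (∑ g, χ g) = (N : ℂ) := by
    rw [map_sum, sum_mul_sum, sum_comm]
    have h1 : ∀ h : G, ∑ g, χ g * (starRingEnd ℂ) (χ h) = ∑ k, ((f h k : ℤ) : ℂ) * χ k := by
      intro h
      rw [← Equiv.sum_comp (Equiv.addLeft h)]
      refine sum_congr rfl fun k _ => ?_
      show χ (h + k) * (starRingEnd ℂ) (χ h) = _
      rw [hadd]
      linear_combination ((f h k : ℤ) : ℂ) * χ k * mul_conj_one (χ h) (h4 h)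
    rw [sum_congr rfl fun h _ => h1 h, sum_comm]
    have h2 : ∀ k : G, ∑ h, ((f h k : ℤ) : ℂ) * χ k = if k = 0 then (N : ℂ) else 0 := by
      intro k
      rw [← sum_mul, hcol]
      split_ifs with hk
      · rw [hk, hχ0, mul_one]
      · rw [zero_mul]
    rw [sum_congr rfl fun k _ => h2 k]
    simp
  choose a b hab using fun g => fourth (χ g) (h4 g)
  refine ⟨∑ g, a g, ∑ g, b g, ?_⟩
  have h5 : (∑ g, χ g) = ((∑ g, a g : ℤ) : ℂ) + ((∑ g, b g : ℤ) : ℂ) * Complex.I := by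
    push_cast
    rw [sum_mul, ← sum_add_distrib]
    exact sum_congr rfl fun g _ => hab g
  rw [h5] at hS
  have h6 : ((((∑ g, a g : ℤ) : ℂ) + ((∑ g, b g : ℤ) : ℂ) * Complex.I) *
      (starRingEnd ℂ) (((∑ g, a g : ℤ) : ℂ) + ((∑ g, b g : ℤ) : ℂ) * Complex.I)) =
      (((∑ g, a g) ^ 2 + (∑ g, b g) ^ 2 : ℤ) : ℂ) := by
    rw [map_add, map_mul, Complex.conj_I, map_intCast, map_intCast]
    push_cast
    have hI : Complex.I ^ 2 = -1 := Complex.I_sq
    linear_combination -((∑ g, (b g : ℂ)) ^ 2) * hI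
  rw [h6] at hS
  exact_mod_cast hS

end Pool.Agent.T6.H87.CH
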